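import Pool.Agent.V11135.SK.Swap

/-!
# Full signed colourings of `K_{r,r}`

The partial colouring from which we start: a decomposition of `K_{r,r}` (minus a perfect matching if
`r` is odd) into Hamiltonian cycles, each coloured `±i` alternately, starting at the vertex `v`.
-/

set_option autoImplicit false

namespace Pool.Agent.V11135.SK

open Finset Function

/-- The colour set `M_n`: `{0, ±1, …, ±k}` if `n = 2k + 1` and `{±1, …, ±k}` if `n = 2k`. -/
noncomputable def colours (n : ℕ) : Finset ℤ :=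
  (Finset.Icc (-((n / 2 : ℕ) : ℤ)) ((n / 2 : ℕ) : ℤ)).filter fun c => c = 0 → n % 2 = 1

theorem mem_colours {n : ℕ} {c : ℤ} : c ∈ colours n ↔
    (-((n / 2 : ℕ) : ℤ) ≤ c ∧ c ≤ ((n / 2 : ℕ) : ℤ)) ∧ (c = 0 → n % 2 = 1) := by
  unfold colours; rw [Finset.mem_filter, Finset.mem_Icc]

theorem card_colours (n : ℕ) : (colours n).card = n := by
  by_cases h : n % 2 = 1
  · have : colours n = Finset.Icc (-((n / 2 : ℕ) : ℤ)) ((n / 2 : ℕ) : ℤ) := by
      unfold colours; rw [Finset.filter_true_of_mem]; intro _ _ _; exact h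
    rw [this, Int.card_Icc]
    omega
  · have : colours n = (Finset.Icc (-((n / 2 : ℕ) : ℤ)) ((n / 2 : ℕ) : ℤ)).erase 0 := by
      ext c
      rw [mem_colours, Finset.mem_erase, Finset.mem_Icc]
      constructor
      · rintro ⟨h1, h2⟩
        exact ⟨fun h3 => h (h2 h3), h1⟩
      · rintro ⟨h1, h2⟩
        exact ⟨h2, fun h3 => absurd h3 h1⟩
    rw [this, Finset.card_erase_of_mem (by rw [Finset.mem_Icc]; omega), Int.card_Icc]
    omega

theorem colours_neg {n : ℕ} : ∀ c ∈ colours n, -c ∈ colours n := by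
  intro c hc
  rw [mem_colours] at hc ⊢
  obtain ⟨h1, h2⟩ := hc
  refine ⟨by omega, fun h => h2 (by omega)⟩

theorem prod_unit {D : Type} (S : Finset D) (f : D → ℤ) (hf : ∀ x ∈ S, f x = 1 ∨ f x = -1) :
    ∏ x ∈ S, f x = 1 ∨ ∏ x ∈ S, f x = -1 := by
  classical
  induction S using Finset.induction_on with
  | empty => left; simp
  | insert a S ha ih =>
    rw [Finset.prod_insert ha]
    rcases hf a (Finset.mem_insert_self _ _) with h | h <;>
      rcases ih (fun x hx => hf x (Finset.mem_insert_of_mem hx)) with h' | h' <;> rw [h, h'] <;> simp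

theorem unit_sq {s : ℤ} (hs : s = 1 ∨ s = -1) : s * s = 1 := by rcases hs with rfl | rfl <;> rfl

theorem natAbs_unit {s : ℤ} (hs : s = 1 ∨ s = -1) (c : ℤ) : (s * c).natAbs = c.natAbs := by
  rcases hs with rfl | rfl
  · rw [one_mul]
  · rw [neg_one_mul, Int.natAbs_neg]

variable {r : ℕ} [NeZero r]

/-- the recursive choice of the signs along a cycle -/
theorem exists_eps (w : ZMod r → ℤ) (hw : ∀ a, w a = 1 ∨ w a = -1) (a0 : ZMod r) :
    ∃ e : ZMod r → ℤ, (∀ a, e a = 1 ∨ e a = -1) ∧ ∀ a, a ≠ a0 → e a = e (a - 1) * w a := by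
  refine ⟨fun a => ∏ u ∈ Finset.range (a - a0).val, w (a0 + u + 1), fun a => ?_, fun a ha => ?_⟩
  · exact prod_unit _ _ fun x _ => hw _
  · have h0 : (a - a0).val ≠ 0 := by
      rw [Ne, ZMod.val_eq_zero, sub_eq_zero]; exact ha
    obtain ⟨n, hn⟩ := Nat.exists_eq_succ_of_ne_zero h0
    have hlt : (a - a0).val < r := ZMod.val_lt _
    have h1 : a - a0 = (n : ZMod r) + 1 := by
      rw [← ZMod.natCast_zmod_val (a - a0), hn]; push_cast; rfl
    have h2 : (a - 1 - a0).val = n := by
      have : a - 1 - a0 = (n : ZMod r) := by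
        calc a - 1 - a0 = (a - a0) - 1 := by ring
          _ = n := by rw [h1]; ring
      rw [this, ZMod.val_natCast_of_lt (by omega)]
    dsimp only
    rw [hn, Nat.succ_eq_add_one, Finset.prod_range_succ, h2]
    congr 2
    calc a0 + (n : ZMod r) + 1 = a0 + ((n : ZMod r) + 1) := by ring
      _ = a := by rw [← h1]; ring

/-- position of the diagonal `s` -/
def idx (t0 s : ZMod r) : ℕ := (s - t0).val + (1 - r % 2)

omit [NeZero r] in
theorem idx_inj [NeZero r] {t0 s s' : ZMod r} (h : idx t0 s = idx t0 s') : s = s' := by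
  unfold idx at h
  have h1 : (s - t0).val = (s' - t0).val := by omega
  exact sub_left_injective (ZMod.val_injective r h1)

theorem idx_succ {t0 s s' : ZMod r} (h : idx t0 s' = idx t0 s + 1) : s' = s + 1 := by
  unfold idx at h
  have h1 : (s' - t0).val = (s - t0).val + 1 := by omega
  have h2 : s' - t0 = s - t0 + 1 := by
    rw [← ZMod.natCast_zmod_val (s' - t0), h1]; push_cast
    rw [ZMod.natCast_zmod_val]
  calc s' = (s' - t0) + t0 := by ring
    _ = s + 1 := by rw [h2]; ring

/-- class of the diagonal `s` -/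
def cl (t0 s : ZMod r) : ℕ := (idx t0 s + 1) / 2

/-- sign of the diagonal `s` -/
def sg (t0 s : ZMod r) : ℤ := if idx t0 s % 2 = 1 then 1 else -1

omit [NeZero r] in
theorem sg_unit (t0 s : ZMod r) : sg t0 s = 1 ∨ sg t0 s = -1 := by
  unfold sg; split_ifs
  · exact Or.inl rfl
  · exact Or.inr rfl

theorem cl_le (t0 s : ZMod r) : cl t0 s ≤ r / 2 := by
  have h : (s - t0).val < r := ZMod.val_lt _
  unfold cl idx
  omega

omit [NeZero r] in
theorem cl_zero {t0 s : ZMod r} : cl t0 s = 0 ↔ r % 2 = 1 ∧ s = t0 := by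
  have h1 : (s - t0).val = 0 ↔ s = t0 := by rw [ZMod.val_eq_zero, sub_eq_zero]
  rw [← h1]
  unfold cl idx
  omega

theorem cl_eq {t0 s s' : ZMod r} (hne : s ≠ s') (h : cl t0 s = cl t0 s') : cl t0 s ≠ 0 ∧
    ((s' = s + 1 ∧ sg t0 s = 1 ∧ sg t0 s' = -1) ∨ (s = s' + 1 ∧ sg t0 s' = 1 ∧ sg t0 s = -1)) := by
  have h1 : idx t0 s ≠ idx t0 s' := fun h => hne (idx_inj h)
  unfold cl at h
  have h2 : cl t0 s ≠ 0 := by
    unfold cl; omega
  refine ⟨h2, ?_⟩
  rcases Nat.lt_or_ge (idx t0 s) (idx t0 s') with h3 | h3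
  · left
    have h4 : idx t0 s' = idx t0 s + 1 := by omega
    refine ⟨idx_succ h4, ?_, ?_⟩
    · unfold sg; rw [if_pos (by omega)]
    · unfold sg; rw [if_neg (by omega)]
  · right
    have h4 : idx t0 s = idx t0 s' + 1 := by omega
    refine ⟨idx_succ h4, ?_, ?_⟩
    · unfold sg; rw [if_pos (by omega)]
    · unfold sg; rw [if_neg (by omega)]

/-- the partial colouring -/
theorem exists_initial (σ : ZMod r → ZMod r → ℤ) (hσ : ∀ a b, σ a b = 1 ∨ σ a b = -1)
    (v t0 : ZMod r) : ∃ L : ZMod r → ZMod r → ℤ, Part (colours r) σ v L ∧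
      ∀ a b, L a b = 0 ↔ (r % 2 = 1 ∧ b - a = t0) := by
  have hw : ∀ s : ZMod r, ∃ e : ZMod r → ℤ, (∀ a, e a = 1 ∨ e a = -1) ∧
      ∀ a, a ≠ v - s → e a * σ a (a + s) = e (a - 1) * σ (a - 1) (a + s) := by
    intro s
    obtain ⟨e, h1, h2⟩ := exists_eps (fun a => σ a (a + s) * σ (a - 1) (a + s))
      (fun a => by
        rcases hσ a (a + s) with h | h <;> rcases hσ (a - 1) (a + s) with h' | h' <;>
          rw [h, h'] <;> simp) (v - s)
    refine ⟨e, h1, fun a ha => ?_⟩
    rw [h2 a ha]
    have := unit_sq (hσ a (a + s))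
    calc e (a - 1) * (σ a (a + s) * σ (a - 1) (a + s)) * σ a (a + s)
        = e (a - 1) * σ (a - 1) (a + s) * (σ a (a + s) * σ a (a + s)) := by ring
      _ = _ := by rw [this, mul_one]
  choose e he1 he2 using hw
  -- the base diagonal of the cycle
  set base : ZMod r → ZMod r := fun s => if sg t0 s = 1 then s else s - 1 with hbase
  set L : ZMod r → ZMod r → ℤ := fun a b =>
    sg t0 (b - a) * e (base (b - a)) a * (cl t0 (b - a) : ℤ) with hL
  have hsu : ∀ a b, sg t0 (b - a) * e (base (b - a)) a = 1 ∨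
      sg t0 (b - a) * e (base (b - a)) a = -1 := by
    intro a b
    rcases sg_unit t0 (b - a) with h | h <;> rcases he1 (base (b - a)) a with h' | h' <;>
      rw [h, h'] <;> simp
  have habs : ∀ a b, (L a b).natAbs = cl t0 (b - a) := by
    intro a b
    rw [hL]
    dsimp only
    rw [Int.natAbs_mul, Int.natAbs_natCast]
    rcases hsu a b with h | h <;> rw [h] <;> simp
  have hzero : ∀ a b, L a b = 0 ↔ (r % 2 = 1 ∧ b - a = t0) := by
    intro a b
    rw [← cl_zero, ← habs a b, Int.natAbs_eq_zero]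
  have hneg1 : (-1 : ℤ) ≠ 1 := by norm_num
  refine ⟨L, ⟨fun a b => ?_, fun a b b' hbb => ?_, fun b hb a a' haa => ?_⟩, hzero⟩
  · rw [mem_colours]
    have h1 := cl_le t0 (b - a)
    rw [← habs a b] at h1
    refine ⟨by omega, fun h => ((hzero a b).1 h).1⟩
  · by_contra hne
    have hs : b - a ≠ b' - a := fun h => hne (sub_left_injective h)
    have hcl : cl t0 (b - a) = cl t0 (b' - a) := by rw [← habs, ← habs, hbb]
    obtain ⟨h0, h | h⟩ := cl_eq hs hcl
    · obtain ⟨k1, k2, k3⟩ := h
      have e1 : base (b - a) = b - a := by rw [hbase]; dsimp only; rw [if_pos k2]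
      have e2 : base (b' - a) = b - a := by
        rw [hbase]; dsimp only; rw [k3, if_neg hneg1, k1]; ring
      rw [hL] at hbb
      dsimp only at hbb
      rw [e1, e2, k2, k3, ← hcl] at hbb
      rcases he1 (b - a) a with h5 | h5 <;> rw [h5] at hbb <;> omega
    · obtain ⟨k1, k2, k3⟩ := h
      have e1 : base (b' - a) = b' - a := by rw [hbase]; dsimp only; rw [if_pos k2]
      have e2 : base (b - a) = b' - a := by
        rw [hbase]; dsimp only; rw [k3, if_neg hneg1, k1]; ring
      rw [hL] at hbb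
      dsimp only at hbb
      rw [e1, e2, k2, k3, ← hcl] at hbb
      rcases he1 (b' - a) a with h5 | h5 <;> rw [h5] at hbb <;> omega
  · -- columns
    have main : ∀ a a' : ZMod r, cl t0 (b - a) ≠ 0 → b - a' = b - a + 1 → sg t0 (b - a) = 1 →
        sg t0 (b - a') = -1 → cl t0 (b - a) = cl t0 (b - a') →
        σ a b * L a b = σ a' b * L a' b → False := by
      intro a a' h0 k1 k2 k3 hcl haa
      have e1 : base (b - a) = b - a := by rw [hbase]; dsimp only; rw [if_pos k2]
      have e2 : base (b - a') = b - a := by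
        rw [hbase]; dsimp only; rw [k3, if_neg hneg1, k1]; ring
      have ha' : a' = a - 1 := by
        calc a' = b - (b - a') := by ring
          _ = a - 1 := by rw [k1]; ring
      have hav : a ≠ v - (b - a) := by
        intro h
        apply hb
        calc b = a + (b - a) := by ring
          _ = (v - (b - a)) + (b - a) := by rw [← h]
          _ = v := by ring
      have hrel := he2 (b - a) a hav
      have hab : a + (b - a) = b := by ring
      rw [hab, ← ha'] at hrel
      rw [hL] at haa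
      dsimp only at haa
      rw [e1, e2, k2, k3, ← hcl] at haa
      have h6 : σ a b * (1 * e (b - a) a * (cl t0 (b - a) : ℤ)) =
          (e (b - a) a * σ a b) * cl t0 (b - a) := by ring
      have h7 : σ a' b * (-1 * e (b - a) a' * (cl t0 (b - a) : ℤ)) =
          -((e (b - a) a' * σ a' b) * cl t0 (b - a)) := by ring
      rw [h6, h7, hrel] at haa
      rcases he1 (b - a) a' with h5 | h5 <;> rcases hσ a' b with h8 | h8 <;>
        rw [h5, h8] at haa <;> omega
    by_contra hne
    dsimp only at haa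
    have hs : b - a ≠ b - a' := fun h => hne (sub_right_injective h)
    have hcl : cl t0 (b - a) = cl t0 (b - a') := by
      rw [← habs, ← habs]
      have := congrArg Int.natAbs haa
      rwa [natAbs_unit (hσ a b), natAbs_unit (hσ a' b)] at this
    obtain ⟨h0, h | h⟩ := cl_eq hs hcl
    · exact main a a' h0 h.1 h.2.1 h.2.2 hcl haa
    · exact main a' a (hcl ▸ h0) h.1 h.2.1 h.2.2 hcl.symm haa.symm

/-- **Full colourings.** -/
theorem exists_matrix (σ : ZMod r → ZMod r → ℤ) (hσ : ∀ a b, σ a b = 1 ∨ σ a b = -1)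
    (hpar : r % 2 = 1 ∨ ∏ a, ∏ b, σ a b = 1) :
    ∃ L : ZMod r → ZMod r → ℤ, (∀ a b, L a b ∈ colours r) ∧ (∀ a, Injective (L a)) ∧
      ∀ b, Injective fun a => σ a b * L a b := by
  classical
  have hcard : Fintype.card (ZMod r) = (colours r).card := by rw [ZMod.card, card_colours]
  by_cases hr : r % 2 = 1
  · -- choose the perfect matching which gets the colour `0`
    set X : ℤ := ∏ a, ∏ b, σ a b with hX
    have hXu : X = 1 ∨ X = -1 := prod_unit _ _ fun a _ => prod_unit _ _ fun b _ => hσ a b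
    have hxs : ∀ s : ZMod r, ∏ a, σ a (a + s) = 1 ∨ ∏ a, σ a (a + s) = -1 := fun s =>
      prod_unit _ _ fun a _ => hσ _ _
    have htot : ∏ s : ZMod r, ∏ a, σ a (a + s) = X := by
      rw [Finset.prod_comm, hX]
      refine Finset.prod_congr rfl fun a _ => ?_
      exact Fintype.prod_equiv (Equiv.addLeft a) _ _ fun s => rfl
    obtain ⟨t0, ht0⟩ : ∃ t0 : ZMod r, ∏ a, σ a (a + t0) = X := by
      by_contra hno
      push Not at hno
      have h1 : ∀ s : ZMod r, ∏ a, σ a (a + s) = -X := by
        intro s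
        rcases hxs s with h | h <;> rcases hXu with h' | h' <;> have h2 := hno s <;>
          rw [h] at h2 ⊢ <;> rw [h'] at h2 ⊢ <;> first | exact absurd rfl h2 | norm_num
      rw [Finset.prod_congr rfl fun s _ => h1 s, Finset.prod_const, Finset.card_univ,
        ZMod.card] at htot
      have hodd : Odd r := Nat.odd_iff.2 hr
      rw [hodd.neg_pow] at htot
      rcases hXu with h | h <;> rw [h] at htot
      · rw [one_pow] at htot; norm_num at htot
      · rw [hodd.neg_one_pow] at htot; norm_num at htot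
    obtain ⟨L, hL, hz⟩ := exists_initial σ hσ 0 t0
    refine exists_full hcard hcard colours_neg hσ hL ?_
    have h2 : ∀ a, (∏ b, if L a b = 0 then 1 else σ a b) = σ a (a + t0) * ∏ b, σ a b := by
      intro a
      rw [← Finset.mul_prod_erase univ (fun b => if L a b = 0 then 1 else σ a b)
        (Finset.mem_univ (a + t0)),
        ← Finset.mul_prod_erase univ (fun b => σ a b) (Finset.mem_univ (a + t0)),
        if_pos ((hz a (a + t0)).2 ⟨hr, by ring⟩), one_mul, ← mul_assoc, unit_sq (hσ _ _), one_mul]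
      refine Finset.prod_congr rfl fun b hb => ?_
      rw [if_neg]
      intro h
      apply Finset.ne_of_mem_erase hb
      have := ((hz a b).1 h).2
      calc b = a + (b - a) := by ring
        _ = a + t0 := by rw [this]
    rw [Finset.prod_congr rfl fun a _ => h2 a, Finset.prod_mul_distrib, ht0, ← hX]
    exact unit_sq hXu
  · have hpar' := hpar.resolve_left hr
    obtain ⟨L, hL, hz⟩ := exists_initial σ hσ 0 0
    refine exists_full hcard hcard colours_neg hσ hL ?_
    rw [← hpar']
    refine Finset.prod_congr rfl fun a _ => Finset.prod_congr rfl fun b _ => ?_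
    rw [if_neg]
    intro h
    exact hr ((hz a b).1 h).1

end Pool.Agent.V11135.SK
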