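import Mathlib

/-!
# Kempe changes for signed edge-colourings of `K_{r,r}` minus one vertex
-/

set_option autoImplicit false

namespace Pool.Agent.V11135.SK

open Finset Function

/-! ### Orbits of two involutions -/

section orbit

variable {C : Type} (R K : Equiv.Perm C)

/-- the orbit of `z` under `R * K` -/
def orb (z : C) : Set C := {x | ∃ n : ℤ, ((R * K) ^ n) z = x}

variable {R K}

theorem conj_pow (hR : ∀ x, R (R x) = x) (hK : ∀ x, K (K x) = x) (n : ℤ) :
    K * (R * K) ^ n = (R * K) ^ (-n) * K := by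
  have hK' : K * K = 1 := Equiv.ext hK
  have hR' : R * R = 1 := Equiv.ext hR
  have hinv : (R * K)⁻¹ = K * R := by
    rw [inv_eq_iff_mul_eq_one]
    calc R * K * (K * R) = R * (K * K) * R := by group
      _ = 1 := by rw [hK', mul_one, hR']
  have h1 : SemiconjBy K (R * K) (K * R) := by
    show K * (R * K) = K * R * K
    group
  have h2 := h1.zpow_right n
  rw [← hinv, inv_zpow, ← zpow_neg] at h2
  exact h2

theorem orb_self (z : C) : z ∈ orb R K z := ⟨0, by simp⟩

theorem orb_K (hR : ∀ x, R (R x) = x) (hK : ∀ x, K (K x) = x) {z : C} (hz : K z = z) {x : C}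
    (hx : x ∈ orb R K z) : K x ∈ orb R K z := by
  obtain ⟨n, rfl⟩ := hx
  refine ⟨-n, ?_⟩
  have := congrArg (fun f : Equiv.Perm C => f z) (conj_pow hR hK n)
  simp only [Equiv.Perm.mul_apply] at this
  rw [this, hz]

theorem orb_R (hR : ∀ x, R (R x) = x) (hK : ∀ x, K (K x) = x) {z : C} (hz : K z = z) {x : C}
    (hx : x ∈ orb R K z) : R x ∈ orb R K z := by
  obtain ⟨m, hm⟩ := orb_K hR hK hz hx
  refine ⟨1 + m, ?_⟩
  rw [zpow_add, zpow_one, Equiv.Perm.mul_apply, hm, Equiv.Perm.mul_apply, hK]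

theorem orb_two (hR : ∀ x, R (R x) = x) (hK : ∀ x, K (K x) = x) {z : C} (hz : K z = z) {x y : C}
    (hx : x ∈ orb R K z) (hy : y ∈ orb R K z) (hKx : K x = x) (hKy : K y = y) (hxz : x ≠ z)
    (hyz : y ≠ z) : x = y := by
  let S : AddSubgroup ℤ :=
    { carrier := {n | ((R * K) ^ n) z = z}
      zero_mem' := by simp
      add_mem' := by
        intro a b ha hb
        simp only [Set.mem_ofPred_eq] at ha hb ⊢
        rw [zpow_add, Equiv.Perm.mul_apply, hb, ha]
      neg_mem' := by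
        intro a ha
        simp only [Set.mem_ofPred_eq] at ha ⊢
        rw [zpow_neg, Equiv.Perm.inv_eq_iff_eq, ha] }
  have key : ∀ n : ℤ, K (((R * K) ^ n) z) = ((R * K) ^ n) z → n + n ∈ S := by
    intro n h
    have h1 := congrArg (fun f : Equiv.Perm C => f z) (conj_pow hR hK n)
    simp only [Equiv.Perm.mul_apply] at h1
    rw [h, hz] at h1
    show ((R * K) ^ (n + n)) z = z
    rw [zpow_add, Equiv.Perm.mul_apply, h1, ← Equiv.Perm.mul_apply, ← zpow_add, add_neg_cancel,
      zpow_zero, Equiv.Perm.one_apply]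
  obtain ⟨n, rfl⟩ := hx
  obtain ⟨m, rfl⟩ := hy
  have hn : n + n ∈ S := key n hKx
  have hm : m + m ∈ S := key m hKy
  have hn' : n ∉ S := hxz
  have hm' : m ∉ S := hyz
  obtain ⟨N, hN⟩ := Int.subgroup_cyclic S
  have hmem : ∀ k : ℤ, k ∈ S ↔ ∃ t : ℤ, t * N = k := by
    intro k
    rw [hN, AddSubgroup.mem_closure_singleton]
    simp
  obtain ⟨p, hp⟩ := (hmem _).1 hn
  obtain ⟨q, hq⟩ := (hmem _).1 hm
  have hpo : Odd p := by
    rw [← Int.not_even_iff_odd]
    rintro ⟨p', rfl⟩
    exact hn' ((hmem _).2 ⟨p', by linarith⟩)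
  have hqo : Odd q := by
    rw [← Int.not_even_iff_odd]
    rintro ⟨q', rfl⟩
    exact hm' ((hmem _).2 ⟨q', by linarith⟩)
  obtain ⟨p', rfl⟩ := hpo
  obtain ⟨q', rfl⟩ := hqo
  have hnm : n - m ∈ S := (hmem _).2 ⟨p' - q', by linarith⟩
  have h3 : ((R * K) ^ (n - m)) z = z := hnm
  calc ((R * K) ^ n) z = ((R * K) ^ (m + (n - m))) z := by rw [add_sub_cancel]
    _ = ((R * K) ^ m) z := by rw [zpow_add, Equiv.Perm.mul_apply, h3]

end orbit

/-! ### Partial signed colourings -/

/-- `p ↔ -q`, `-p ↔ q` -/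
def tau (p q c : ℤ) : ℤ :=
  if c = p then -q else if c = -q then p else if c = -p then q else if c = q then -p else c

section tau

variable {p q : ℤ} (hp : p ≠ 0) (hq : q ≠ 0) (h1 : p ≠ q) (h2 : p ≠ -q)
include hp hq h1 h2

theorem tau_tau (c : ℤ) : tau p q (tau p q c) = c := by
  unfold tau; split_ifs <;> omega

theorem tau_neg (c : ℤ) : tau p q (-c) = -tau p q c := by
  unfold tau; split_ifs <;> omega

theorem tau_unit {s : ℤ} (hs : s = 1 ∨ s = -1) (c : ℤ) : tau p q (s * c) = s * tau p q c := by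
  rcases hs with rfl | rfl
  · simp
  · rw [neg_one_mul, neg_one_mul, tau_neg hp hq h1 h2]

end tau

variable {A B : Type} [Fintype A] [Fintype B] [DecidableEq A] [DecidableEq B]

/-- every row is a bijection onto `M`; the columns other than `v` too, after multiplication by `σ` -/
structure Part (M : Finset ℤ) (σ : A → B → ℤ) (v : B) (L : A → B → ℤ) : Prop where
  mem : ∀ a b, L a b ∈ M
  row : ∀ a, Injective (L a)
  col : ∀ b, b ≠ v → Injective fun a => σ a b * L a b

theorem unit_mem {M : Finset ℤ} (hM : ∀ c ∈ M, -c ∈ M) {s c : ℤ} (hs : s = 1 ∨ s = -1)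
    (hc : c ∈ M) : s * c ∈ M := by
  rcases hs with rfl | rfl
  · simpa using hc
  · simpa using hM c hc

theorem unit_mem_iff {M : Finset ℤ} (hM : ∀ c ∈ M, -c ∈ M) {s c : ℤ} (hs : s = 1 ∨ s = -1) :
    s * c ∈ M ↔ c ∈ M := by
  refine ⟨fun h => ?_, unit_mem hM hs⟩
  have := unit_mem hM hs h
  rcases hs with rfl | rfl <;> simpa using this

omit [DecidableEq A] [DecidableEq B] in
theorem surj_of_inj {D : Type} [Fintype D] {M : Finset ℤ} (hcard : Fintype.card D = M.card)
    {f : D → ℤ} (hf : Injective f) (hm : ∀ x, f x ∈ M) {c : ℤ} (hc : c ∈ M) : ∃ x, f x = c := by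
  classical
  have h1 : (univ : Finset D).image f = M := by
    apply Finset.eq_of_subset_of_card_le
    · intro y hy
      obtain ⟨x, -, rfl⟩ := Finset.mem_image.1 hy
      exact hm x
    · rw [Finset.card_image_of_injective _ hf, Finset.card_univ, hcard]
  rw [← h1] at hc
  obtain ⟨x, -, hx⟩ := Finset.mem_image.1 hc
  exact ⟨x, hx⟩

variable {M : Finset ℤ} {σ : A → B → ℤ} {v : B} {L : A → B → ℤ}

omit [DecidableEq A] [DecidableEq B] in
/-- sums along a bijection onto `M` -/
theorem sum_bij {D : Type} [Fintype D] (hcard : Fintype.card D = M.card)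
    {f : D → ℤ} (hf : Injective f) (hm : ∀ x, f x ∈ M) (F : ℤ → ℤ) :
    ∑ x, F (f x) = ∑ c ∈ M, F c := by
  classical
  refine Finset.sum_bij (fun x _ => f x) (fun x _ => hm x) (fun x _ y _ h => hf h) ?_
    (fun _ _ => rfl)
  intro c hc
  obtain ⟨x, hx⟩ := surj_of_inj hcard hf hm hc
  exact ⟨x, Finset.mem_univ _, hx⟩

omit [DecidableEq A] [DecidableEq B] in
/-- products along a bijection onto `M` -/
theorem prod_bij {D : Type} [Fintype D] (hcard : Fintype.card D = M.card)
    {f : D → ℤ} (hf : Injective f) (hm : ∀ x, f x ∈ M) (F : ℤ → ℤ) :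
    ∏ x, F (f x) = ∏ c ∈ M, F c := by
  classical
  refine Finset.prod_bij (fun x _ => f x) (fun x _ => hm x) (fun x _ y _ h => hf h) ?_
    (fun _ _ => rfl)
  intro c hc
  obtain ⟨x, hx⟩ := surj_of_inj hcard hf hm hc
  exact ⟨x, Finset.mem_univ _, hx⟩

omit [DecidableEq A] in
/-- in the column `v` each even function has the same sum as in the other columns -/
theorem sum_col (hA : Fintype.card A = M.card) (hB : Fintype.card B = M.card)
    (hM : ∀ c ∈ M, -c ∈ M) (hσ : ∀ a b, σ a b = 1 ∨ σ a b = -1) (hL : Part M σ v L)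
    (F : ℤ → ℤ) (hF : ∀ c, F (-c) = F c) :
    ∑ a, F (σ a v * L a v) = ∑ c ∈ M, F c := by
  have hFu : ∀ a b, F (σ a b * L a b) = F (L a b) := by
    intro a b
    rcases hσ a b with h | h <;> rw [h]
    · rw [one_mul]
    · rw [neg_one_mul, hF]
  have h1 : ∑ a, ∑ b, F (L a b) = (M.card : ℤ) * ∑ c ∈ M, F c := by
    rw [Finset.sum_congr rfl fun a _ => sum_bij hB (hL.row a) (hL.mem a) F, Finset.sum_const,
      Finset.card_univ, hA, nsmul_eq_mul]
  have h2 : ∑ a, ∑ b, F (L a b) = ∑ b, ∑ a, F (σ a b * L a b) := by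
    rw [Finset.sum_comm]
    exact Finset.sum_congr rfl fun b _ => Finset.sum_congr rfl fun a _ => (hFu a b).symm
  have h3 : ∑ b, ∑ a, F (σ a b * L a b) =
      ∑ a, F (σ a v * L a v) + ((M.card : ℤ) - 1) * ∑ c ∈ M, F c := by
    rw [← Finset.add_sum_erase _ _ (Finset.mem_univ v)]
    congr 1
    rw [Finset.sum_congr rfl fun b hb => sum_bij hA (hL.col b (Finset.ne_of_mem_erase hb))
      (fun a => unit_mem hM (hσ a b) (hL.mem a b)) F, Finset.sum_const,
      Finset.card_erase_of_mem (Finset.mem_univ v), Finset.card_univ, hB, nsmul_eq_mul]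
    have : 1 ≤ M.card := by
      rw [← hB]; exact Fintype.card_pos_iff.2 ⟨v⟩
    push_cast [this]
    ring
  have h4 := h1.symm.trans (h2.trans h3)
  linarith

/-- the sign, with `sgn 0 = 1` -/
def sgn (c : ℤ) : ℤ := if c < 0 then -1 else 1

theorem sgn_sq (c : ℤ) : sgn c * sgn c = 1 := by unfold sgn; split_ifs <;> rfl

theorem sgn_neg {c : ℤ} (hc : c ≠ 0) : sgn (-c) = -sgn c := by
  unfold sgn; split_ifs <;> omega

theorem sgn_unit {s c : ℤ} (hs : s = 1 ∨ s = -1) :
    sgn (s * c) = (if c = 0 then 1 else s) * sgn c := by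
  by_cases hc : c = 0
  · subst hc; simp [sgn]
  · rw [if_neg hc]
    rcases hs with rfl | rfl
    · simp
    · rw [neg_one_mul, neg_one_mul, sgn_neg hc]

omit [DecidableEq A] in
/-- the product of the signs in the column `v` -/
theorem prod_col (hA : Fintype.card A = M.card) (hB : Fintype.card B = M.card)
    (hM : ∀ c ∈ M, -c ∈ M) (hσ : ∀ a b, σ a b = 1 ∨ σ a b = -1) (hL : Part M σ v L) :
    ∏ a, sgn (σ a v * L a v) =
      (∏ a, ∏ b, if L a b = 0 then 1 else σ a b) * ∏ c ∈ M, sgn c := by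
  set P : ℤ := ∏ c ∈ M, sgn c with hP
  have hPP : P * P = 1 := by
    rw [hP, ← Finset.prod_mul_distrib]
    exact Finset.prod_eq_one fun c _ => sgn_sq c
  have h1 : ∏ a, ∏ b, sgn (σ a b * L a b) =
      (∏ a, ∏ b, if L a b = 0 then 1 else σ a b) * P ^ M.card := by
    have : ∏ a, ∏ b, sgn (σ a b * L a b) =
        ∏ a, ((∏ b, if L a b = 0 then 1 else σ a b) * P) := by
      refine Finset.prod_congr rfl fun a _ => ?_
      rw [hP, ← prod_bij hB (hL.row a) (hL.mem a) sgn, ← Finset.prod_mul_distrib]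
      exact Finset.prod_congr rfl fun b _ => sgn_unit (hσ a b)
    rw [this, Finset.prod_mul_distrib, Finset.prod_const, Finset.card_univ, hA]
  have h2 : ∏ a, ∏ b, sgn (σ a b * L a b) =
      (∏ a, sgn (σ a v * L a v)) * P ^ (M.card - 1) := by
    rw [Finset.prod_comm, ← Finset.mul_prod_erase _ _ (Finset.mem_univ v)]
    congr 1
    rw [Finset.prod_congr rfl fun b hb => prod_bij hA (hL.col b (Finset.ne_of_mem_erase hb))
      (fun a => unit_mem hM (hσ a b) (hL.mem a b)) sgn, Finset.prod_const,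
      Finset.card_erase_of_mem (Finset.mem_univ v), Finset.card_univ, hB]
  have hpos : 1 ≤ M.card := by
    rw [← hB]; exact Fintype.card_pos_iff.2 ⟨v⟩
  obtain ⟨m, hm⟩ : ∃ m, M.card = m + 1 := ⟨M.card - 1, by omega⟩
  rw [hm, Nat.add_sub_cancel] at h2
  rw [hm, pow_succ] at h1
  have hPm : P ^ m * P ^ m = 1 := by
    rw [← mul_pow, hPP, one_pow]
  have h3 := h1.symm.trans h2
  calc ∏ a, sgn (σ a v * L a v) = ((∏ a, sgn (σ a v * L a v)) * P ^ m) * P ^ m := by
        rw [mul_assoc, hPm, mul_one]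
    _ = ((∏ a, ∏ b, if L a b = 0 then 1 else σ a b) * (P ^ m * P)) * P ^ m := by rw [← h3]
    _ = ((∏ a, ∏ b, if L a b = 0 then 1 else σ a b) * P) * (P ^ m * P ^ m) := by ring
    _ = _ := by rw [hPm, mul_one]

end Pool.Agent.V11135.SK
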