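import Pool.Agent.V11135.SK.Kempe

/-!
# Repairing two bad classes by one Kempe change
-/

set_option autoImplicit false

namespace Pool.Agent.V11135.SK

open Finset Function

variable {A B : Type} [Fintype A] [Fintype B] [DecidableEq A] [DecidableEq B]
variable {M : Finset ℤ} {σ : A → B → ℤ} {v : B} {L : A → B → ℤ}

omit [DecidableEq A] in
theorem class_sum (hA : Fintype.card A = M.card) (hB : Fintype.card B = M.card)
    (hM : ∀ c ∈ M, -c ∈ M) (hσ : ∀ a b, σ a b = 1 ∨ σ a b = -1) (hL : Part M σ v L) {p : ℤ}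
    (hp : p ≠ 0) (hpM : p ∈ M) :
    ((univ : Finset A).filter fun a => σ a v * L a v = p ∨ σ a v * L a v = -p).card = 2 := by
  have h1 := sum_col hA hB hM hσ hL (fun c => if c = p ∨ c = -p then 1 else 0) (by
    intro c
    by_cases h : c = p ∨ c = -p
    · rw [if_pos h, if_pos (by omega)]
    · rw [if_neg h, if_neg (by omega)])
  rw [Finset.sum_boole, Finset.sum_boole] at h1
  have h2 : M.filter (fun c => c = p ∨ c = -p) = {p, -p} := by
    ext c
    simp only [Finset.mem_filter, Finset.mem_insert, Finset.mem_singleton]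
    constructor
    · exact fun h => h.2
    · rintro (rfl | rfl)
      · exact ⟨hpM, Or.inl rfl⟩
      · exact ⟨hM _ hpM, Or.inr rfl⟩
  rw [h2, Finset.card_pair (by omega)] at h1
  exact_mod_cast h1

theorem class_two (hA : Fintype.card A = M.card) (hB : Fintype.card B = M.card)
    (hM : ∀ c ∈ M, -c ∈ M) (hσ : ∀ a b, σ a b = 1 ∨ σ a b = -1) (hL : Part M σ v L) {p : ℤ}
    (hp : p ≠ 0) {a1 a2 : A} (h12 : a1 ≠ a2) (g1 : σ a1 v * L a1 v = p)
    (g2 : σ a2 v * L a2 v = p) {a : A} (ha : σ a v * L a v = p ∨ σ a v * L a v = -p) :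
    a = a1 ∨ a = a2 := by
  by_contra hne
  push Not at hne
  have hpM : p ∈ M := g1 ▸ unit_mem hM (hσ a1 v) (hL.mem a1 v)
  have h1 := class_sum hA hB hM hσ hL hp hpM
  have h2 : ({a, a1, a2} : Finset A) ⊆
      (univ : Finset A).filter fun a => σ a v * L a v = p ∨ σ a v * L a v = -p := by
    intro x hx
    simp only [Finset.mem_insert, Finset.mem_singleton] at hx
    rw [Finset.mem_filter]
    refine ⟨Finset.mem_univ _, ?_⟩
    rcases hx with rfl | rfl | rfl
    · exact ha
    · exact Or.inl g1
    · exact Or.inl g2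
  have h3 := Finset.card_le_card h2
  rw [h1, Finset.card_insert_of_notMem (by simp [hne.1, hne.2]), Finset.card_pair h12] at h3
  omega

omit [DecidableEq A] in
theorem class_zero (hA : Fintype.card A = M.card) (hB : Fintype.card B = M.card)
    (hM : ∀ c ∈ M, -c ∈ M) (hσ : ∀ a b, σ a b = 1 ∨ σ a b = -1) (hL : Part M σ v L)
    {a1 a2 : A} (h12 : a1 ≠ a2) (g1 : σ a1 v * L a1 v = 0) (g2 : σ a2 v * L a2 v = 0) : False := by
  classical
  have h1 := sum_col hA hB hM hσ hL (fun c => if c = 0 then 1 else 0) (by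
    intro c
    by_cases h : c = 0
    · rw [if_pos h, if_pos (by omega)]
    · rw [if_neg h, if_neg (by omega)])
  rw [Finset.sum_boole, Finset.sum_boole] at h1
  have h2 : (M.filter (fun c => c = 0)).card ≤ 1 := by
    rw [Finset.card_le_one]
    intro x hx y hy
    rw [(Finset.mem_filter.1 hx).2, (Finset.mem_filter.1 hy).2]
  have h3 : ({a1, a2} : Finset A) ⊆ (univ : Finset A).filter fun a => σ a v * L a v = 0 := by
    intro x hx
    simp only [Finset.mem_insert, Finset.mem_singleton] at hx
    rw [Finset.mem_filter]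
    refine ⟨Finset.mem_univ _, ?_⟩
    rcases hx with rfl | rfl
    · exact g1
    · exact g2
  have h4 := Finset.card_le_card h3
  rw [Finset.card_pair h12] at h4
  have h5 : ((univ : Finset A).filter fun a => σ a v * L a v = 0).card =
      (M.filter (fun c => c = 0)).card := by exact_mod_cast h1
  omega

/-- the weight which counts the classes `p` and `q` with opposite signs -/
def wt (p q c : ℤ) : ℤ := if c = p ∨ c = -p then 1 else if c = q ∨ c = -q then -1 else 0

theorem wt_neg (p q c : ℤ) : wt p q (-c) = wt p q c := by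
  unfold wt; split_ifs <;> omega

theorem wt_unit (p q : ℤ) {s : ℤ} (hs : s = 1 ∨ s = -1) (c : ℤ) : wt p q (s * c) = wt p q c := by
  rcases hs with rfl | rfl
  · rw [one_mul]
  · rw [neg_one_mul, wt_neg]

theorem wt_tau {p q : ℤ} (h1 : p ≠ q) (h2 : p ≠ -q) (c : ℤ) :
    wt p q (tau p q c) = -wt p q c := by
  unfold wt tau; split_ifs <;> omega

theorem tau_mem (hM : ∀ c ∈ M, -c ∈ M) {p q c : ℤ} (hpM : p ∈ M) (hqM : q ∈ M) (hc : c ∈ M) :
    tau p q c ∈ M := by
  unfold tau
  split_ifs
  · exact hM _ hqM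
  · exact hpM
  · exact hqM
  · exact hM _ hpM
  · exact hc

/-- **The Kempe change.** -/
theorem swap (hA : Fintype.card A = M.card) (hB : Fintype.card B = M.card)
    (hM : ∀ c ∈ M, -c ∈ M) (hσ : ∀ a b, σ a b = 1 ∨ σ a b = -1) (hL : Part M σ v L) {p q : ℤ}
    (hp : p ≠ 0) (hq : q ≠ 0) (h1 : p ≠ q) (h2 : p ≠ -q) {a1 a2 a3 a4 : A} (h12 : a1 ≠ a2)
    (h34 : a3 ≠ a4) (g1 : σ a1 v * L a1 v = p) (g2 : σ a2 v * L a2 v = p)
    (g3 : σ a3 v * L a3 v = q) (g4 : σ a4 v * L a4 v = q) :
    ∃ L' : A → B → ℤ, Part M σ v L' ∧ (∀ a b, L' a b = 0 ↔ L a b = 0) ∧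
      ((univ : Finset A).image fun a => σ a v * L a v).card <
        ((univ : Finset A).image fun a => σ a v * L' a v).card := by
  classical
  have hpM : p ∈ M := g1 ▸ unit_mem hM (hσ a1 v) (hL.mem a1 v)
  have hqM : q ∈ M := g3 ▸ unit_mem hM (hσ a3 v) (hL.mem a3 v)
  have htt := tau_tau hp hq h1 h2
  have htu : ∀ {s : ℤ} (hs : s = 1 ∨ s = -1) (c : ℤ), tau p q (s * c) = s * tau p q c :=
    fun hs c => tau_unit hp hq h1 h2 hs c
  have hrow : ∀ a b, ∃ b', L a b' = tau p q (L a b) := fun a b =>
    surj_of_inj hB (hL.row a) (hL.mem a) (tau_mem hM hpM hqM (hL.mem a b))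
  choose R1 hR1 using hrow
  have hcol : ∀ b, b ≠ v → ∀ a, ∃ a', σ a' b * L a' b = tau p q (σ a b * L a b) := fun b hb a =>
    surj_of_inj hA (hL.col b hb) (fun a => unit_mem hM (hσ a b) (hL.mem a b))
      (tau_mem hM hpM hqM (unit_mem hM (hσ a b) (hL.mem a b)))
  choose K1 hK1 using hcol
  have hRinv : Involutive fun x : A × B => (x.1, R1 x.1 x.2) := by
    rintro ⟨a, b⟩
    show (a, R1 a (R1 a b)) = (a, b)
    have : R1 a (R1 a b) = b := hL.row a (by rw [hR1, hR1, htt])
    rw [this]
  have hKinv : Involutive fun x : A × B => if h : x.2 = v then x else (K1 x.2 h x.1, x.2) := by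
    rintro ⟨a, b⟩
    dsimp only
    by_cases hb : b = v
    · simp [hb]
    · rw [dif_neg hb]
      dsimp only
      rw [dif_neg hb]
      have : K1 b hb (K1 b hb a) = a := hL.col b hb (by dsimp only; rw [hK1, hK1, htt])
      rw [this]
  set R : Equiv.Perm (A × B) := hRinv.toPerm with hRdef
  set K : Equiv.Perm (A × B) := hKinv.toPerm with hKdef
  have hRR : ∀ x, R (R x) = x := hRinv
  have hKK : ∀ x, K (K x) = x := hKinv
  have hRapp : ∀ a b, R (a, b) = (a, R1 a b) := fun a b => rfl
  have hKv : ∀ a, K (a, v) = (a, v) := by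
    intro a
    show (if h : v = v then (a, v) else _) = (a, v)
    rw [dif_pos rfl]
  have hKapp : ∀ a b (hb : b ≠ v), K (a, b) = (K1 b hb a, b) := by
    intro a b hb
    show (if h : b = v then (a, b) else (K1 b h a, b)) = _
    rw [dif_neg hb]
  set z : A × B := (a1, v) with hz
  have hKz : K z = z := hKv a1
  set X : Set (A × B) := orb R K z with hX
  have hXR : ∀ {x}, x ∈ X → R x ∈ X := fun h => orb_R hRR hKK hKz h
  have hXK : ∀ {x}, x ∈ X → K x ∈ X := fun h => orb_K hRR hKK hKz h
  have hXR' : ∀ {x}, R x ∈ X → x ∈ X := fun {x} h => by have := hXR h; rwa [hRR] at this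
  have hXK' : ∀ {x}, K x ∈ X → x ∈ X := fun {x} h => by have := hXK h; rwa [hKK] at this
  have hzX : z ∈ X := orb_self z
  -- weights
  set Xf : Finset (A × B) := univ.filter fun x => x ∈ X with hXf
  have hmemf : ∀ x, x ∈ Xf ↔ x ∈ X := fun x => by rw [hXf, Finset.mem_filter]; simp
  set W : A × B → ℤ := fun x => wt p q (L x.1 x.2) with hW
  have hWR : ∀ x, W (R x) = -W x := by
    rintro ⟨a, b⟩
    rw [hRapp, hW]
    dsimp only
    rw [hR1, wt_tau h1 h2]
  have hWK : ∀ x : A × B, x.2 ≠ v → W (K x) = -W x := by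
    rintro ⟨a, b⟩ hb
    rw [hKapp a b hb, hW]
    dsimp only
    rw [← wt_unit p q (hσ _ _), hK1 b hb a, wt_tau h1 h2, wt_unit p q (hσ _ _)]
  have hsum1 : ∑ x ∈ Xf, W x = 0 := by
    have h3 : ∑ x ∈ Xf, W x = ∑ x ∈ Xf, -W x := by
      refine Finset.sum_bij' (fun x _ => R x) (fun x _ => R x) ?_ ?_ ?_ ?_ ?_
      · intro x hx; exact (hmemf _).2 (hXR ((hmemf _).1 hx))
      · intro x hx; exact (hmemf _).2 (hXR ((hmemf _).1 hx))
      · intro x _; exact hRR x
      · intro x _; exact hRR x
      · intro x _; rw [hWR, neg_neg]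
    rw [Finset.sum_neg_distrib] at h3
    linarith
  have hsum2 : ∑ x ∈ Xf.filter (fun x => x.2 ≠ v), W x = 0 := by
    have hK2 : ∀ x : A × B, (K x).2 = x.2 := by
      rintro ⟨a, b⟩
      by_cases hb : b = v
      · subst hb; rw [hKv]
      · rw [hKapp a b hb]
    have h3 : ∑ x ∈ Xf.filter (fun x => x.2 ≠ v), W x =
        ∑ x ∈ Xf.filter (fun x => x.2 ≠ v), -W x := by
      refine Finset.sum_bij' (fun x _ => K x) (fun x _ => K x) ?_ ?_ ?_ ?_ ?_
      · intro x hx
        obtain ⟨h4, h5⟩ := Finset.mem_filter.1 hx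
        exact Finset.mem_filter.2 ⟨(hmemf _).2 (hXK ((hmemf _).1 h4)), by rw [hK2]; exact h5⟩
      · intro x hx
        obtain ⟨h4, h5⟩ := Finset.mem_filter.1 hx
        exact Finset.mem_filter.2 ⟨(hmemf _).2 (hXK ((hmemf _).1 h4)), by rw [hK2]; exact h5⟩
      · intro x _; exact hKK x
      · intro x _; exact hKK x
      · intro x hx; rw [hWK x (Finset.mem_filter.1 hx).2, neg_neg]
    rw [Finset.sum_neg_distrib] at h3
    linarith
  have hsum3 : ∑ x ∈ Xf.filter (fun x => x.2 = v), W x = 0 := by
    have h3 := Finset.sum_filter_add_sum_filter_not Xf (fun x => x.2 = v) W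
    rw [hsum1, hsum2, add_zero] at h3
    exact h3
  have hWz : W z = 1 := by
    rw [hW]
    dsimp only
    rw [← wt_unit p q (hσ a1 v), g1]
    unfold wt
    rw [if_pos (Or.inl rfl)]
  have hzf : z ∈ Xf.filter (fun x => x.2 = v) := Finset.mem_filter.2 ⟨(hmemf z).2 hzX, rfl⟩
  -- the other end of the chain
  obtain ⟨s, hsX, hsz, hsq⟩ : ∃ s : A, (s, v) ∈ X ∧ s ≠ a1 ∧
      (σ s v * L s v = q ∨ σ s v * L s v = -q) := by
    have hex : ∃ x ∈ Xf.filter (fun x => x.2 = v), x ≠ z := by
      by_contra hno
      push Not at hno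
      have : Xf.filter (fun x => x.2 = v) = {z} :=
        Finset.eq_singleton_iff_unique_mem.2 ⟨hzf, hno⟩
      rw [this, Finset.sum_singleton, hWz] at hsum3
      exact one_ne_zero hsum3
    obtain ⟨x, hx, hxz⟩ := hex
    have hall : Xf.filter (fun x => x.2 = v) = {z, x} := by
      ext y
      rw [Finset.mem_insert, Finset.mem_singleton]
      constructor
      · intro hy
        by_cases hyz : y = z
        · exact Or.inl hyz
        · right
          obtain ⟨k1, k2⟩ := Finset.mem_filter.1 hy
          obtain ⟨k3, k4⟩ := Finset.mem_filter.1 hx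
          have e1 : K y = y := by
            obtain ⟨ya, yb⟩ := y
            dsimp only at k2; subst k2; exact hKv ya
          have e2 : K x = x := by
            obtain ⟨xa, xb⟩ := x
            dsimp only at k4; subst k4; exact hKv xa
          exact orb_two hRR hKK hKz ((hmemf _).1 k1) ((hmemf _).1 k3) e1 e2 hyz hxz
      · rintro (rfl | rfl)
        · exact hzf
        · exact hx
    rw [hall, Finset.sum_pair hxz.symm, hWz] at hsum3
    obtain ⟨k3, k4⟩ := Finset.mem_filter.1 hx
    obtain ⟨s, xb⟩ := x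
    dsimp only at k4
    subst k4
    refine ⟨s, (hmemf _).1 k3, fun h => hxz (by rw [h]), ?_⟩
    have h5 : W (s, xb) = -1 := by linarith
    rw [hW] at h5
    dsimp only at h5
    rw [← wt_unit p q (hσ s xb)] at h5
    unfold wt at h5
    split_ifs at h5 with h6 h7
    · exact h7
  have honly : ∀ a, (a, v) ∈ X → a = a1 ∨ a = s := by
    intro a ha
    by_cases h5 : a = a1
    · exact Or.inl h5
    · right
      have := orb_two hRR hKK hKz ha hsX (hKv a) (hKv s) (fun h => h5 (congrArg Prod.fst h))
        (fun h => hsz (congrArg Prod.fst h))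
      exact congrArg Prod.fst this
  have hs34 : s = a3 ∨ s = a4 := class_two hA hB hM hσ hL hq h34 g3 g4 hsq
  have hgs : σ s v * L s v = q := by
    rcases hs34 with h | h <;> rw [h]
    · exact g3
    · exact g4
  -- the new colouring
  have hσ' := hσ
  refine ⟨fun a b => if (a, b) ∈ X then tau p q (L a b) else L a b, ⟨?_, ?_, ?_⟩, ?_, ?_⟩
  · intro a b
    split_ifs
    · exact tau_mem hM hpM hqM (hL.mem a b)
    · exact hL.mem a b
  · intro a b b' hbb
    dsimp only at hbb
    split_ifs at hbb with k1 k2 k2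
    · apply hL.row a
      rw [← htt (L a b), hbb, htt]
    · exfalso
      apply k2
      have : R (a, b) = (a, b') := by
        rw [hRapp]
        congr 1
        exact hL.row a (by rw [hR1, hbb])
      rw [← this]; exact hXR k1
    · exfalso
      apply k1
      have : R (a, b') = (a, b) := by
        rw [hRapp]
        congr 1
        exact hL.row a (by rw [hR1, ← hbb])
      rw [← this]; exact hXR k2
    · exact hL.row a hbb
  · intro b hb a a' haa
    dsimp only at haa
    split_ifs at haa with k1 k2 k2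
    · apply hL.col b hb
      dsimp only
      rw [← htu (hσ a b), ← htu (hσ a' b)] at haa
      rw [← htt (σ a b * L a b), haa, htt]
    · exfalso
      apply k2
      have : K (a, b) = (a', b) := by
        rw [hKapp a b hb]
        congr 1
        apply hL.col b hb
        dsimp only
        rw [hK1, htu (hσ a b), haa]
      rw [← this]; exact hXK k1
    · exfalso
      apply k1
      have : K (a', b) = (a, b) := by
        rw [hKapp a' b hb]
        congr 1
        apply hL.col b hb
        dsimp only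
        rw [hK1, htu (hσ a' b), ← haa]
      rw [← this]; exact hXK k2
    · exact hL.col b hb haa
  · intro a b
    dsimp only
    split_ifs
    · unfold tau
      split_ifs <;> omega
    · rfl
  · -- the column `v`
    have hg' : ∀ a, σ a v * (if (a, v) ∈ X then tau p q (L a v) else L a v) =
        if (a, v) ∈ X then tau p q (σ a v * L a v) else σ a v * L a v := by
      intro a
      split_ifs
      · rw [htu (hσ a v)]
      · rfl
    have ha2X : (a2, v) ∉ X := by
      intro h
      rcases honly a2 h with h3 | h3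
      · exact h12 h3.symm
      · rw [h3] at g2; exact h1 (g2.symm.trans hgs)
    obtain ⟨t, htX, htq⟩ : ∃ t, (t, v) ∉ X ∧ σ t v * L t v = q := by
      have ne1 : ∀ t, σ t v * L t v = q → t ≠ a1 := by
        rintro t ht rfl
        exact h1 (g1.symm.trans ht)
      rcases hs34 with h | h
      · refine ⟨a4, fun hX4 => ?_, g4⟩
        rcases honly a4 hX4 with h5 | h5
        · exact ne1 a4 g4 h5
        · exact h34 (h.symm.trans h5.symm)
      · refine ⟨a3, fun hX3 => ?_, g3⟩
        rcases honly a3 hX3 with h5 | h5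
        · exact ne1 a3 g3 h5
        · exact h34 (h5.trans h)
    apply Finset.card_lt_card
    rw [Finset.ssubset_iff_of_subset]
    · refine ⟨-p, Finset.mem_image.2 ⟨s, Finset.mem_univ _, ?_⟩, ?_⟩
      · dsimp only
        rw [hg', if_pos hsX, hgs]
        unfold tau; split_ifs <;> omega
      · intro h
        obtain ⟨a, -, ha⟩ := Finset.mem_image.1 h
        rcases class_two hA hB hM hσ hL hp h12 g1 g2 (Or.inr ha) with h5 | h5
        · rw [h5, g1] at ha; omega
        · rw [h5, g2] at ha; omega
    · intro y hy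
      obtain ⟨a, -, rfl⟩ := Finset.mem_image.1 hy
      by_cases haX : (a, v) ∈ X
      · rcases honly a haX with rfl | rfl
        · refine Finset.mem_image.2 ⟨a2, Finset.mem_univ _, ?_⟩
          dsimp only
          rw [if_neg ha2X, g1, g2]
        · refine Finset.mem_image.2 ⟨t, Finset.mem_univ _, ?_⟩
          dsimp only
          rw [if_neg htX, htq, hgs]
      · refine Finset.mem_image.2 ⟨a, Finset.mem_univ _, ?_⟩
        dsimp only
        rw [if_neg haX]

/-- **From a partial colouring to a full one.** -/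
theorem exists_full (hA : Fintype.card A = M.card) (hB : Fintype.card B = M.card)
    (hM : ∀ c ∈ M, -c ∈ M) (hσ : ∀ a b, σ a b = 1 ∨ σ a b = -1) {L0 : A → B → ℤ}
    (hL0 : Part M σ v L0) (hW : (∏ a, ∏ b, if L0 a b = 0 then 1 else σ a b) = 1) :
    ∃ L : A → B → ℤ, (∀ a b, L a b ∈ M) ∧ (∀ a, Injective (L a)) ∧
      ∀ b, Injective fun a => σ a b * L a b := by
  classical
  -- a partial colouring with as many values in the column `v` as possible
  let S : Finset ℕ := (Finset.range (Fintype.card A + 1)).filter fun n =>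
    ∃ L : A → B → ℤ, Part M σ v L ∧ (∀ a b, L a b = 0 ↔ L0 a b = 0) ∧
      ((univ : Finset A).image fun a => σ a v * L a v).card = n
  have hmemS : ∀ L : A → B → ℤ, Part M σ v L → (∀ a b, L a b = 0 ↔ L0 a b = 0) →
      ((univ : Finset A).image fun a => σ a v * L a v).card ∈ S := by
    intro L h1 h2
    refine Finset.mem_filter.2 ⟨?_, L, h1, h2, rfl⟩
    rw [Finset.mem_range]
    have := Finset.card_image_le (s := (univ : Finset A)) (f := fun a => σ a v * L a v)
    rw [Finset.card_univ] at this
    omega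
  have hSne : S.Nonempty := ⟨_, hmemS L0 hL0 fun _ _ => Iff.rfl⟩
  obtain ⟨-, L, hL, hL00, hn⟩ := Finset.mem_filter.1 (S.max'_mem hSne)
  have hmax : ∀ L' : A → B → ℤ, Part M σ v L' → (∀ a b, L' a b = 0 ↔ L0 a b = 0) →
      ((univ : Finset A).image fun a => σ a v * L' a v).card ≤
        ((univ : Finset A).image fun a => σ a v * L a v).card := by
    intro L' h1 h2
    rw [hn]
    exact Finset.le_max' _ _ (hmemS L' h1 h2)
  refine ⟨L, hL.mem, hL.row, fun b => ?_⟩
  by_cases hb : b ≠ v
  · exact hL.col b hb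
  push Not at hb
  subst hb
  by_contra hinj
  unfold Injective at hinj
  push Not at hinj
  obtain ⟨x, y, hxy, hne⟩ := hinj
  obtain ⟨p, hpx⟩ : ∃ p, σ x b * L x b = p := ⟨_, rfl⟩
  have hpy : σ y b * L y b = p := by rw [← hxy]; exact hpx
  have hp : p ≠ 0 := by
    rintro rfl
    exact class_zero hA hB hM hσ hL hne hpx hpy
  have hpM : p ∈ M := hpx ▸ unit_mem hM (hσ x b) (hL.mem x b)
  set g : A → ℤ := fun a => σ a b * L a b with hg
  have hgx : g x = p := hpx
  have hgy : g y = p := hpy
  have hcl : ∀ a, g a = p ∨ g a = -p → a = x ∨ a = y := fun a ha =>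
    class_two hA hB hM hσ hL hp hne hpx hpy ha
  have hg2 : Injective (update g y (-p)) := by
    intro s t hst
    by_contra hstne
    by_cases hs : s = y
    · subst hs
      have ht : t ≠ s := fun h => hstne h.symm
      rw [update_self, update_of_ne ht] at hst
      rcases hcl t (Or.inr hst.symm) with h | h
      · subst h; rw [hgx] at hst; omega
      · exact ht h
    · by_cases ht : t = y
      · subst ht
        rw [update_self, update_of_ne hs] at hst
        rcases hcl s (Or.inr hst) with h | h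
        · subst h; rw [hgx] at hst; omega
        · exact hs h
      · rw [update_of_ne hs, update_of_ne ht] at hst
        obtain ⟨q, hq⟩ : ∃ q, g s = q := ⟨_, rfl⟩
        have hqt : g t = q := by rw [← hst]; exact hq
        have hq0 : q ≠ 0 := by
          rintro rfl
          exact class_zero hA hB hM hσ hL hstne hq hqt
        by_cases hpq : q = p ∨ q = -p
        · have e1 := hcl s (by rw [hq]; exact hpq)
          have e2 := hcl t (by rw [hqt]; exact hpq)
          rcases e1 with e1 | e1
          · rcases e2 with e2 | e2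
            · exact hstne (e1.trans e2.symm)
            · exact ht e2
          · exact hs e1
        · push Not at hpq
          obtain ⟨L', k1, k2, k3⟩ := swap hA hB hM hσ hL hp hq0 (Ne.symm hpq.1)
            (fun h => hpq.2 (by omega)) hne hstne hpx hpy hq hqt
          have k4 := hmax L' k1 fun a b => (k2 a b).trans (hL00 a b)
          exact absurd k3 (not_lt.2 k4)
  have hgM : ∀ a, g a ∈ M := fun a => unit_mem hM (hσ a b) (hL.mem a b)
  have hg2M : ∀ a, update g y (-p) a ∈ M := by
    intro a
    by_cases ha : a = y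
    · subst ha; rw [update_self]; exact hM _ hpM
    · rw [update_of_ne ha]; exact hgM a
  have e1 := prod_bij hA hg2 hg2M sgn
  have e2 := prod_col hA hB hM hσ hL
  have hWL : (∏ a, ∏ b, if L a b = 0 then 1 else σ a b) = 1 := by
    refine Eq.trans ?_ hW
    refine Finset.prod_congr rfl fun a _ => Finset.prod_congr rfl fun b _ => ?_
    by_cases h : L0 a b = 0
    · rw [if_pos h, if_pos ((hL00 a b).2 h)]
    · rw [if_neg h, if_neg fun h' => h ((hL00 a b).1 h')]
  rw [hWL, one_mul] at e2
  have e3 : ∏ a, sgn (update g y (-p) a) = -∏ a, sgn (g a) := by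
    rw [← Finset.mul_prod_erase _ _ (Finset.mem_univ y),
      ← Finset.mul_prod_erase univ (fun a => sgn (g a)) (Finset.mem_univ y), update_self, hgy,
      sgn_neg hp, neg_mul]
    congr 2
    refine Finset.prod_congr rfl fun a ha => ?_
    rw [update_of_ne (Finset.ne_of_mem_erase ha)]
  have e4 : (∏ c ∈ M, sgn c) * (∏ c ∈ M, sgn c) = 1 := by
    rw [← Finset.prod_mul_distrib]
    exact Finset.prod_eq_one fun c _ => sgn_sq c
  have e5 : ∏ a, sgn (g a) = ∏ c ∈ M, sgn c := e2
  rw [e1, e5] at e3
  have e6 : ∏ c ∈ M, sgn c = 0 := by linarith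
  rw [e6] at e4
  norm_num at e4

end Pool.Agent.V11135.SK
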